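import Pool.Agent.H849.EF.Final

/-!
# MP_a3c811_ag: independence of `ℓ` for the motives of coverings branched along ample divisors

Let `X'` be a smooth projective variety over `ℚ` (or over a local field) with strictly semistable
reduction `X'` of relative dimension `n` at `p`, and `G` a finite group of automorphisms of the model
which is generated by elements each of which fixes pointwise an ample divisor which is transversal to
all the strata of the special fibre. For example `X' → X` is the cyclic covering `w ^ m = f` of an
**arbitrary** projective scheme `X` with strictly semistable reduction, branched along the divisor of a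
section `f` of `L ^ m`, where `L` is ample (`p` does not divide `m`), or a composition of such coverings.
The idempotents `e` of the group algebra `ℚ[G]` define Chow motives `M = (X', e, r)`. The inertia group
acts on the realisation `e H^i(X')` by `exp (t N)`, so its invariants are the kernel of `N`.

By the weak Lefschetz theorem `G` acts trivially on the cohomology of the strata `Y^(a+1)` (dimension
`n - a`) in the degrees less than `n - a` (`TrivialBelowMiddle`).

**Theorem.** Let `e` be an idempotent of `ℚ[G]`.

1. If the augmentation of `e` is `0` (so `(X', e)` is a motive of the part of `X'` which does not come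
   from the quotient `X = X' / G`), then for all `i` the characteristic polynomial of the Frobenius on the
   inertia invariants of `e H^i(X')`, and so the local Euler factor at `p`, has rational coefficients and
   does not depend on `ℓ`. It is `1` for `i ≠ n`, and
   `∏ a ≤ n, det (T - F | e H^(n-a)(Y^(a+1)))` for `i = n`.
2. If the augmentation is not `0`, then the local Euler factor of `(X', e)` in degree `i` has rational
   coefficients and does not depend on `ℓ` if and only if this is true for the Euler factor of
   `H^i(X)`, `X = X' / G`.

So the conjecture holds for all these motives if `X` is, for example, an abelian variety, a product of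
curves, a surface, … in all dimensions.

The rationality and the independence of `ℓ` of the characteristic polynomials of the Frobenius on
`e H^(n-a)(Y^(a+1))` for the smooth projective varieties `Y^(a+1)` over a finite field, which are the
hypothesis `hQ`, are the theorem of Deligne and of Katz and Messing. The monodromy-weight conjecture for
`X'` and `X` is not assumed.
-/

set_option autoImplicit false

open Module

universe u v

namespace Pool.Agent.Results.MP_a3c811_ag.CoveringMotives

open Pool.Agent.Y143 Pool.Agent.H849.CC Pool.Agent.H849.EF

/-- **Independence of `ℓ` of the local Euler factors of the motives of coverings branched along ample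
divisors.** -/
theorem result {Λ : Type} {K : Λ → Type u} [∀ l, Field (K l)] [∀ l, CharZero (K l)] {Γ : Type}
    {n q : ℕ} (X : ∀ l, SemistableModel.{u, v} (K l) Γ n q) {G : Type} [Group G] [Fintype G]
    (A : ∀ l, GroupAction (X l).generic G) (hA : ∀ l, (A l).IsAction)
    (hN : ∀ l, IsFrobeniusCompatible (A l) q) (hG : ∀ l, (A l).TrivialBelowMiddle n)
    (hQ : ∀ e : G → ℚ, IsIdempotent e → ∀ a : ℕ, a ≤ n →
      IsRational fun l => strataPoly (A l) e a (n - a))
    (e : G → ℚ) (he : IsIdempotent e) :
    (∑ g, e g = 0 →
      (∀ i, IsRational fun l => eulerPoly (A l) e i) ∧
        (∀ l i, i ≠ n → eulerPoly (A l) e i = 1) ∧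
        ∀ l, eulerPoly (A l) e n = ∏ a ∈ Finset.range (n + 1), strataPoly (A l) e a (n - a)) ∧
      (∑ g, e g ≠ 0 → ∀ i, (IsRational fun l => eulerPoly (A l) e i) ↔
        IsRational fun l => eulerPoly (A l) (meanValue G) i) :=
  ⟨fun h0 => ⟨rational_new hA hN hG hQ he h0,
    fun l _ hi => eulerPoly_outside (hA l) (hG l) h0 he hi,
    fun l => eulerPoly_eq (hA l) (hG l) h0 he (hN l)⟩,
    fun h0 => rational_iff hA hN hG hQ he h0⟩

end Pool.Agent.Results.MP_a3c811_ag.CoveringMotives
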