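import Pool.Agent.H367.OS.GPlain

/-!
# Independence of `ℓ` of local Euler factors and single pieces of one sequence of cubics

A relation `r` of size `m` is one of the equations `x_i x_j = x_l`, `x_i + x_j = x_l`, `x_i = 1` with
`i, j, l < m`; the relations are numbered, the number of `r` is `ν(r)` (`relNum`). Let `G_m` be the
following polynomial with integral coefficients (`univG ℤ m`). There are variables `x_i` and `z_ij` for
`i, j < m`, a variable `c_r` for every relation `r`, and variables `y_{r,l}` for all relations `r` and
`l < (m + 1) 2 ^ ν(r)`. The equations (`eqnG`) are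

  `z_ij - x_i x_j`,  `c_r ^ 2 - c_r`,  `c_r ρ_r`,  `(1 - c_r) y_{r,l}`,

where `ρ_r` is the linear polynomial `z_ij - x_l`, `x_i + x_j - x_l` or `x_i - 1` of the relation.
`G_m` is the sum of the equations multiplied by further variables `t_e`, one for each equation. It has
degree three. Let `C_m` be the affine cubic hypersurface `G_m = 1` (`cubG R m` over the ring `R`); it is
smooth over the integers.

Let `M` be the category of motives over `ℚ` in the sense of André, a semisimple abelian category with
Tate twists `N ↦ N(a)`. For a separated scheme `X` of finite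
type over `ℚ` let `D.G w j X = Gr^W_w H^j_c(X)` be the part of weight `w` of the cohomology with compact
supports, a motive over `ℚ`; for smooth projective `Y` it is `h^j(Y)` if `j = w`, and zero otherwise.

Let `p` be a prime number, and let `F.P p ℓ N` be the Euler factor `det(1 - T Frob_p)` on the inertia
invariants of the `ℓ`-adic realization of `N`. `IndepAt F p N` says that for `ℓ ≠ p` it has rational
coefficients and is independent of `ℓ`. The statement `T(N)` is `AllFactors (IndepAt F p) N`: the same
for all direct factors of `N`. For a Chow motive `(X, π, r)` and an integer `i` the motive of degree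
`i` is a direct factor of `h^j(X)(r)`, `j = i + 2 r`, and the Tate twist does not change the
statement. So the statement `T(h^j(Y))` for all `Y` implies question Q1 for `p` and all `(X, π, r)`
and `i` with `i + 2 r = j` (`Chow p j`; the hypothesis `describes`). (It is the same as question Q1 if
motivated cycles are algebraic.)

**Theorem.** Let `E_m` be the number of the equations, and for `N ∈ ℕ` let `e = (m + 1) N + E_m - 1`
(`esh m N`).

(1) For every prime `p` and every degree `j`: the statement `T` is true for the motives `h^j(Y)` of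
all smooth projective varieties over `ℚ` if and only if for infinitely many `m` it is true for the
single motives `Gr^W_{j+2e} H^{j+2e+1}_c(C_m)`, for all `N`. This implies the assertion of question Q1
for `p` and all Chow motives of this degree.

(2) The hypersurfaces `C_m` decide the statement `T` for the pieces of the cohomology
(`DecidesPlain`). For every affine scheme `Spec B` of finite type over `ℚ` and all large `m` there is
an `N` such that for `0 ≤ w ≤ 2 m + 1` and all `j` the statement for `Gr^W_w H^j_c(Spec B)` is
equivalent to the one for `Gr^W_{w+2e} H^{j+2e+1}_c(C_m)`. For every smooth projective `Y` over `ℚ`,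
every `d` and all large `m` there is an `e'` such that for all `i ≤ d` the statement for `h^i(Y)` is
equivalent to the one for `Gr^W_{i+2e'} H^{i+2e'+1}_c(C_m)`. The statements for the pieces of one
`C_m` imply those for all pieces of a given separated scheme `X` of finite type.

(3) For `j ≤ 1` (Artin motives, and abelian varieties: Grothendieck) the statement `T` is true for the
single motives in (1), for infinitely many `m` and all `N`.

(4) `G_m` has integral coefficients and degree at most three, and `C_m` is smooth over all rings.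

The hypotheses on the motives are standard (`IsMot`): exact sequences, affine bundles, disjoint
unions, the cohomology of affine spaces, the weights of `H^j_c(X)` are between `0` and `2 dim X`,
monomorphisms split, `Gr^W_w H^j_c(X)` is a direct factor of `h^w(Y)` for some smooth projective `Y`
(it is a subquotient, by the weight spectral sequence), and every smooth projective scheme has an
affine bundle whose total space is affine (Jouanolou); the Euler factor of `N(a)` is `P(p^{-a} T)` if
`P` is the one of `N` (`twist`).

Idea of the proof. The projection of `C_m` to the affine space with the coordinates `x, z, c, y` is an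
affine bundle over the complement of the zero set `W_m` of the equations. The scheme `W_m` is the
disjoint union, over all sets `s` of relations (`c_r = 1` for `r ∈ s` and `c_r = 0` for the others), of
the products `X_s × 𝔸 ^ ((m + 1) N(s))`, where `X_s` is the affine scheme defined by the relations in
`s` and `N(s) = ∑_{r ∈ s} 2 ^ ν(r)`. The numbers `N(s)` are different, and the dimension of `X_s` is at
most `m`. So the invariant of `W_m` with the index `q + (m + 1) N(s)`, `0 ≤ q ≤ m`, is the invariant of
`X_s` with the index `q`; the other components do not contribute. Every affine scheme of finite type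
over a prime field is an `X_s`, for all large `m`.

The universal system of relations is the one of helper854 (`Pool.Agent.H854.SQ`).
-/

set_option autoImplicit false

open CategoryTheory CategoryTheory.Limits AlgebraicGeometry Pool.Agent.Y116.UV Pool.Agent.Z125.UN
  Pool.Agent.Q193.LT Pool.Agent.H854.SQ Pool.Agent.H367.OS Polynomial

universe v u



namespace Pool.Agent.Results.MP_a3c811_ag.PiecesOfOneSequence

/-- The Euler factors `P p ℓ N = det(1 - T Frob_p)` on the inertia invariants of the `ℓ`-adic
realization of the motive `N`, with the Euler factors of the Tate twists. -/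
structure EulerFactors {M : Type u} [Category.{v} M] (D : Pieces ℚ M) where
  /-- the Euler factor at `p` of the `ℓ`-adic realization -/
  P : ∀ (_ ℓ : ℕ) [Fact ℓ.Prime], M → ℚ_[ℓ][X]
  twist : ∀ (a : ℤ) (N : M) (p : ℕ), p.Prime → ∀ (ℓ : ℕ) [Fact ℓ.Prime], ℓ ≠ p →
    P p ℓ ((D.tw a).obj N) = (P p ℓ N).comp (C ((p : ℚ_[ℓ]) ^ (-a)) * X)

/-- At the prime `p` the Euler factors of `N` have rational coefficients and are the same for all
`ℓ ≠ p`. -/
def IndepAt {M : Type u} [Category.{v} M] {D : Pieces ℚ M} (F : EulerFactors D) (p : ℕ) (N : M) :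
    Prop :=
  ∃ P : ℚ[X], ∀ (ℓ : ℕ) [Fact ℓ.Prime], ℓ ≠ p → F.P p ℓ N = P.map (algebraMap ℚ ℚ_[ℓ])

lemma map_scale (P : ℚ[X]) (p : ℕ) (a : ℤ) (ℓ : ℕ) [Fact ℓ.Prime] :
    (P.comp (C ((p : ℚ) ^ a) * X)).map (algebraMap ℚ ℚ_[ℓ]) =
      (P.map (algebraMap ℚ ℚ_[ℓ])).comp (C ((p : ℚ_[ℓ]) ^ a) * X) := by
  have h1 : algebraMap ℚ ℚ_[ℓ] ((p : ℚ) ^ a) = (p : ℚ_[ℓ]) ^ a := by
    rw [map_zpow₀, map_natCast]
  rw [Polynomial.map_comp, Polynomial.map_mul, Polynomial.map_C, Polynomial.map_X, h1]

lemma comp_scale {K : Type} [Field K] {c d : K} (hc : d * c = 1) (P : K[X]) :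
    (P.comp (C c * X)).comp (C d * X) = P := by
  rw [Polynomial.comp_assoc]
  have : (C c * X : K[X]).comp (C d * X) = X := by
    rw [Polynomial.mul_comp, Polynomial.C_comp, Polynomial.X_comp, ← mul_assoc, ← C_mul,
      mul_comm c d, hc, C_1, one_mul]
  rw [this, Polynomial.comp_X]

lemma indep_untwist {M : Type u} [Category.{v} M] {D : Pieces ℚ M} {F : EulerFactors D} {p : ℕ}
    (hp : p.Prime) (a : ℤ) {N : M} (hN : IndepAt F p ((D.tw a).obj N)) : IndepAt F p N := by
  obtain ⟨P, hP⟩ := hN
  refine ⟨P.comp (C ((p : ℚ) ^ a) * X), fun ℓ _ hℓ => ?_⟩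
  have hp0 : (p : ℚ_[ℓ]) ≠ 0 := by exact_mod_cast hp.ne_zero
  have h3 := F.twist a N p hp ℓ hℓ
  rw [hP ℓ hℓ] at h3
  have h4 := congrArg (fun Q : ℚ_[ℓ][X] => Q.comp (C ((p : ℚ_[ℓ]) ^ a) * X)) h3
  beta_reduce at h4
  rw [comp_scale (by rw [← zpow_add₀ hp0, add_neg_cancel, zpow_zero])] at h4
  rw [← h4, map_scale]

lemma factors_twist {M : Type u} [Category.{v} M] [Abelian M] {D : Pieces ℚ M} (hD : IsPieces D)
    {F : EulerFactors D} {p : ℕ} (hp : p.Prime) (a : ℤ) {N : M}
    (hN : AllFactors (IndepAt F p) N) : AllFactors (IndepAt F p) ((D.tw a).obj N) := by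
  intro R hR
  refine indep_untwist hp (-a) (hN _ ?_)
  obtain ⟨e⟩ := hD.tw_inv a N
  exact (hR.map (D.tw (-a))).trans (Factor.of_iso e)

/-- **Independence of `ℓ` of local Euler factors and single pieces of one sequence of cubic hypersurfaces
over the integers.** See the explanations above. -/
theorem result {M : Type u} [Category.{v} M] [Abelian M] {D : Pieces ℚ M}
    (h : IsMot D) (F : EulerFactors D) {Chow : ℕ → ℕ → Prop}
    (describes : ∀ p j : ℕ, p.Prime →
      (∀ Y : Sch ℚ, SmoothProj Y → AllFactors (IndepAt F p) (D.G j j Y)) → Chow p j)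
    (low : ∀ p j : ℕ, p.Prime → j ≤ 1 → ∀ Y : Sch ℚ, SmoothProj Y →
      AllFactors (IndepAt F p) (D.G j j Y)) :
    (∀ p j : ℕ, p.Prime →
      ((∀ Y : Sch ℚ, SmoothProj Y → AllFactors (IndepAt F p) (D.G j j Y)) ↔
        ∃ᶠ m in Filter.atTop, ∀ N : ℕ, AllFactors (IndepAt F p)
          (D.G (j + 2 * esh m N) (j + 2 * esh m N + 1) (cubG ℚ m))) ∧
      ((∃ᶠ m in Filter.atTop, ∀ N : ℕ, AllFactors (IndepAt F p)
          (D.G (j + 2 * esh m N) (j + 2 * esh m N + 1) (cubG ℚ m))) → Chow p j)) ∧
    (∀ p : ℕ, p.Prime → DecidesPlain D (AllFactors (IndepAt F p))) ∧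
    (∀ p j : ℕ, p.Prime → j ≤ 1 → ∃ᶠ m in Filter.atTop, ∀ N : ℕ,
      AllFactors (IndepAt F p) (D.G (j + 2 * esh m N) (j + 2 * esh m N + 1) (cubG ℚ m))) ∧
    ∀ m : ℕ, (univG ℤ m).totalDegree ≤ 3 ∧
      ∀ (R : Type) [CommRing R], MvPolynomial.map (Int.castRingHom R) (univG ℤ m) = univG R m ∧
        Smooth (cubG R m).hom := by
  have hd : ∀ p : ℕ, p.Prime → DecidesPlain D (AllFactors (IndepAt F p)) := fun p hp =>
    (decides_pieces isPrimeField_rat h (allFactors_closed _)).plain fun t N =>
      ⟨fun g => by
        have h1 := factors_twist h.pieces hp (-t) g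
        obtain ⟨e⟩ := h.pieces.tw_inv t N
        exact FactorClosed.isoInv (allFactors_closed _) e h1, fun g => factors_twist h.pieces hp t g⟩
  have h0 : ∀ p j : ℕ, p.Prime →
      ((∀ Y : Sch ℚ, SmoothProj Y → AllFactors (IndepAt F p) (D.G j j Y)) ↔
        ∃ᶠ m in Filter.atTop, ∀ N : ℕ, AllFactors (IndepAt F p)
          (D.G (j + 2 * esh m N) (j + 2 * esh m N + 1) (cubG ℚ m))) := fun p j hp =>
    ((hd p hp).weight j).out 1 0
  exact ⟨fun p j hp => ⟨h0 p j hp, fun g => describes p j hp ((h0 p j hp).mpr g)⟩, hd,
    fun p j hp hj => (h0 p j hp).mp (low p j hp hj), cubG_facts⟩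

end Pool.Agent.Results.MP_a3c811_ag.PiecesOfOneSequence
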